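import Pool.Agent.Helper88.EL.Basic

/-!
# SL_2(ℤ[x,1/x]) = E_2(ℤ[x,1/x]): the end of the argument (MP_287ff4_al)

Frames of measure one are of the form `a s⁻¹`, `a ∈ GL_2(ℤ[x^±])`, `s ∈ SL_2(ℚ)`, and sharing a line
preserves the property that `a` is an elementary matrix times a diagonal one.
-/

set_option autoImplicit false

namespace Pool.Agent.Helper40.EL

open LaurentPolynomial Matrix Pool.Agent.Helper88.EL

/-- `ℤ[x^±]`. -/
abbrev RZ := LaurentPolynomial ℤ
/-- 2 × 2 matrices over `ℤ[x^±]`. -/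
abbrev MZ := Matrix (Fin 2) (Fin 2) RZ
/-- `SL_2(ℤ[x^±])`. -/
abbrev SZ := Matrix.SpecialLinearGroup (Fin 2) RZ

/-- The elementary group. -/
noncomputable def EE : Subgroup SZ := Subgroup.closure
  {g : Matrix.SpecialLinearGroup (Fin 2) (LaurentPolynomial ℤ) |
    ∃ i j : Fin 2, ∃ c : LaurentPolynomial ℤ, i ≠ j ∧
      (g : Matrix (Fin 2) (Fin 2) (LaurentPolynomial ℤ)) = Matrix.transvection i j c}

/-- upper elementary matrices -/
noncomputable def up (c : RZ) : SZ := ⟨!![1, c; 0, 1], by rw [Matrix.det_fin_two_of]; ring⟩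
/-- lower elementary matrices -/
noncomputable def lo (c : RZ) : SZ := ⟨!![1, 0; c, 1], by rw [Matrix.det_fin_two_of]; ring⟩

theorem coe_up (c : RZ) : (up c : MZ) = !![1, c; 0, 1] := rfl
theorem coe_lo (c : RZ) : (lo c : MZ) = !![1, 0; c, 1] := rfl

theorem transv01 (c : RZ) : Matrix.transvection (0 : Fin 2) 1 c = !![1, c; 0, 1] := by
  ext i j : 2; fin_cases i <;> fin_cases j <;> simp [Matrix.transvection]

theorem transv10 (c : RZ) : Matrix.transvection (1 : Fin 2) 0 c = !![1, 0; c, 1] := by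
  ext i j : 2; fin_cases i <;> fin_cases j <;> simp [Matrix.transvection]

theorem up_mem (c : RZ) : up c ∈ EE :=
  Subgroup.subset_closure ⟨0, 1, c, by decide, by rw [transv01]; rfl⟩

theorem lo_mem (c : RZ) : lo c ∈ EE :=
  Subgroup.subset_closure ⟨1, 0, c, by decide, by rw [transv10]; rfl⟩

theorem up_inv (c : RZ) : (up c)⁻¹ = up (-c) := by
  rw [inv_eq_iff_mul_eq_one]
  apply Subtype.ext
  rw [Matrix.SpecialLinearGroup.coe_mul, coe_up, coe_up, Matrix.SpecialLinearGroup.coe_one]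
  ext i j : 2; fin_cases i <;> fin_cases j <;> simp [Matrix.mul_apply, Fin.sum_univ_two]

theorem lo_inv (c : RZ) : (lo c)⁻¹ = lo (-c) := by
  rw [inv_eq_iff_mul_eq_one]
  apply Subtype.ext
  rw [Matrix.SpecialLinearGroup.coe_mul, coe_lo, coe_lo, Matrix.SpecialLinearGroup.coe_one]
  ext i j : 2; fin_cases i <;> fin_cases j <;> simp [Matrix.mul_apply, Fin.sum_univ_two]

/-- diagonal matrices -/
noncomputable def dg (i j : ℤ) : MZ := !![T i, 0; 0, T j]

theorem dg_mul_up (i j : ℤ) (c : RZ) : dg i j * (up c : MZ) = (up (T (i - j) * c) : MZ) * dg i j := by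
  have h : (T (i - j) : RZ) * c * T j = T i * c := by
    rw [mul_right_comm, ← T_add, sub_add_cancel]
  ext a b : 2
  fin_cases a <;> fin_cases b <;>
    simp [dg, coe_up, Matrix.mul_apply, Fin.sum_univ_two, -T_mul, h]

theorem dg_mul_lo (i j : ℤ) (c : RZ) : dg i j * (lo c : MZ) = (lo (T (j - i) * c) : MZ) * dg i j := by
  have h : (T (j - i) : RZ) * c * T i = T j * c := by
    rw [mul_right_comm, ← T_add, sub_add_cancel]
  ext a b : 2
  fin_cases a <;> fin_cases b <;>
    simp [dg, coe_lo, Matrix.mul_apply, Fin.sum_univ_two, -T_mul, h]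

theorem dg_mul_dg (i j k l : ℤ) : dg i j * dg k l = dg (i + k) (j + l) := by
  ext a b : 2
  fin_cases a <;> fin_cases b <;>
    simp [dg, Matrix.mul_apply, Fin.sum_univ_two, -T_mul, ← T_add]

/-- elementary times diagonal -/
def ELm (a : MZ) : Prop := ∃ e ∈ EE, ∃ i j : ℤ, a = (e : MZ) * dg i j

theorem ELm.mul_dg {a : MZ} (h : ELm a) (k l : ℤ) : ELm (a * dg k l) := by
  obtain ⟨e, he, i, j, rfl⟩ := h
  exact ⟨e, he, i + k, j + l, by rw [Matrix.mul_assoc, dg_mul_dg]⟩

theorem ELm.mul_up {a : MZ} (h : ELm a) (c : RZ) : ELm (a * (up c : MZ)) := by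
  obtain ⟨e, he, i, j, rfl⟩ := h
  refine ⟨e * up (T (i - j) * c), EE.mul_mem he (up_mem _), i, j, ?_⟩
  rw [Matrix.SpecialLinearGroup.coe_mul, Matrix.mul_assoc, Matrix.mul_assoc, dg_mul_up]

theorem ELm.mul_lo {a : MZ} (h : ELm a) (c : RZ) : ELm (a * (lo c : MZ)) := by
  obtain ⟨e, he, i, j, rfl⟩ := h
  refine ⟨e * lo (T (j - i) * c), EE.mul_mem he (lo_mem _), i, j, ?_⟩
  rw [Matrix.SpecialLinearGroup.coe_mul, Matrix.mul_assoc, Matrix.mul_assoc, dg_mul_lo]

theorem ELm.mul_mem {a : MZ} (h : ELm a) {g : SZ} (hg : g ∈ EE) : ELm (a * (g : MZ)) := by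
  have key : (∀ a, ELm a → ELm (a * (g : MZ))) ∧ (∀ a, ELm a → ELm (a * ((g⁻¹ : SZ) : MZ))) := by
    unfold EE at hg
    induction hg using Subgroup.closure_induction with
    | mem x hx =>
      obtain ⟨i, j, c, hij, hx⟩ := hx
      have hcase : x = up c ∨ x = lo c := by
        fin_cases i <;> fin_cases j
        · exact absurd rfl hij
        · left; apply Subtype.ext; rw [coe_up, ← transv01]; exact hx
        · right; apply Subtype.ext; rw [coe_lo, ← transv10]; exact hx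
        · exact absurd rfl hij
      rcases hcase with rfl | rfl
      · exact ⟨fun a ha => ha.mul_up c, fun a ha => by rw [up_inv]; exact ha.mul_up (-c)⟩
      · exact ⟨fun a ha => ha.mul_lo c, fun a ha => by rw [lo_inv]; exact ha.mul_lo (-c)⟩
    | one => simp
    | mul x y _ _ hx hy =>
      refine ⟨fun a ha => ?_, fun a ha => ?_⟩
      · rw [Matrix.SpecialLinearGroup.coe_mul, ← Matrix.mul_assoc]
        exact hy.1 _ (hx.1 _ ha)
      · rw [_root_.mul_inv_rev, Matrix.SpecialLinearGroup.coe_mul, ← Matrix.mul_assoc]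
        exact hx.2 _ (hy.2 _ ha)
    | inv x _ hx => exact ⟨hx.2, fun a ha => by rw [inv_inv]; exact hx.1 _ ha⟩
  exact key.1 a h

theorem ELm.of_mul_mem {a : MZ} {g : SZ} (hg : g ∈ EE) (h : ELm (a * (g : MZ))) : ELm a := by
  have := h.mul_mem (EE.inv_mem hg)
  rwa [Matrix.mul_assoc, ← Matrix.SpecialLinearGroup.coe_mul, mul_inv_cancel,
    Matrix.SpecialLinearGroup.coe_one, Matrix.mul_one] at this

theorem ELm_of_mem {g : SZ} (hg : g ∈ EE) : ELm (g : MZ) :=
  ⟨g, hg, 0, 0, by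
    have : dg 0 0 = 1 := by
      ext a b : 2; fin_cases a <;> fin_cases b <;> simp [dg]
    rw [this, Matrix.mul_one]⟩

/-- `SL_2(ℤ) → SL_2(ℤ[x^±])`. -/
noncomputable def phi : Matrix.SpecialLinearGroup (Fin 2) ℤ →* SZ :=
  Matrix.SpecialLinearGroup.map (LaurentPolynomial.C : ℤ →+* RZ)

theorem coe_phi (g : Matrix.SpecialLinearGroup (Fin 2) ℤ) (i j : Fin 2) :
    (phi g : MZ) i j = C (g.1 i j) := rfl

theorem phi_mem (g : Matrix.SpecialLinearGroup (Fin 2) ℤ) : phi g ∈ EE := by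
  have h : (⊤ : Subgroup (Matrix.SpecialLinearGroup (Fin 2) ℤ)) ≤ EE.comap phi := by
    rw [← SpecialLinearGroup.SL2Z_generators, Subgroup.closure_le]
    rintro x (rfl | rfl)
    · show phi ModularGroup.S ∈ EE
      have : phi ModularGroup.S = up (-1) * lo 1 * up (-1) := by
        apply Subtype.ext
        rw [Matrix.SpecialLinearGroup.coe_mul, Matrix.SpecialLinearGroup.coe_mul, coe_up, coe_lo]
        ext i j : 2
        rw [coe_phi]
        fin_cases i <;> fin_cases j <;>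
          simp [ModularGroup.S, Matrix.mul_apply, Fin.sum_univ_two]
      rw [this]
      exact EE.mul_mem (EE.mul_mem (up_mem _) (lo_mem _)) (up_mem _)
    · show phi ModularGroup.T ∈ EE
      have : phi ModularGroup.T = up 1 := by
        apply Subtype.ext
        rw [coe_up]
        ext i j : 2
        rw [coe_phi]
        fin_cases i <;> fin_cases j <;> simp [ModularGroup.T]
      rw [this]
      exact up_mem _
  exact h (Subgroup.mem_top g)

/-- Whitehead -/
theorem dg_mem (i : ℤ) : ∃ g ∈ EE, (g : MZ) = dg i (-i) := by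
  refine ⟨up (T i) * lo (-T (-i)) * up (T i) * (up (-1) * lo 1 * up (-1)),
    EE.mul_mem (EE.mul_mem (EE.mul_mem (up_mem _) (lo_mem _)) (up_mem _))
      (EE.mul_mem (EE.mul_mem (up_mem _) (lo_mem _)) (up_mem _)), ?_⟩
  have h1 : (T i : RZ) * T (-i) = 1 := by rw [← T_add]; simp
  have h2 : (T (-i) : RZ) * T i = 1 := by rw [← T_add]; simp
  simp only [Matrix.SpecialLinearGroup.coe_mul, coe_up, coe_lo, dg]
  ext a b : 2
  fin_cases a <;> fin_cases b <;>
    simp [Matrix.mul_apply, Fin.sum_univ_two, h1, h2]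

/-! ### matrices over `ℤ[x^±]` in matrices over `ℚ[x^±]` -/

/-- `Mat_2(ℤ[x^±]) → Mat_2(ℚ[x^±])`. -/
noncomputable def iM (a : MZ) : M2 := a.map iQ

theorem iM_apply (a : MZ) (i j : Fin 2) : iM a i j = iQ (a i j) := rfl

theorem det_iM (a : MZ) : (iM a).det = iQ a.det := (RingHom.map_det iQ a).symm

theorem iM_mulVec (a : MZ) (v : Fin 2 → RZ) (i : Fin 2) :
    (iM a).mulVec (fun j => iQ (v j)) i = iQ (a.mulVec v i) := by
  simp [Matrix.mulVec, dotProduct, iM, map_mul]

theorem exists_iM {g : M2} (h : ∀ i j, IsInt (g i j)) : ∃ a : MZ, g = iM a := by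
  choose a ha using fun i j => isInt_iff.1 (h i j)
  exact ⟨Matrix.of a, Matrix.ext fun i j => (ha i j).symm⟩

theorem frame_int (hL : LatFrStmt) (hT : TOneStmt) {g : M2} (hg : Fr 2 g) :
    ∃ u u' : Q2, ∃ a : MZ, dq u u' = 1 ∧ g * bas u u' = iM a := by
  have hlat := hL g hg.1
  have h1 : tt (Lat g) = 1 := by
    have := hlat.fin
    have := hg.2
    omega
  obtain ⟨-, u, u', hu, h⟩ := (hT _ hlat).2 (Or.inl ((hT _ hlat).1 h1))
  rw [← Lat_mul] at h
  have h2 : ∀ i j, IsInt ((g * bas u u') i j) := by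
    intro i j
    have h3 : (Pi.single j 1 : V) ∈ Lat (g * bas u u') := by
      rw [h]
      intro k
      by_cases hk : k = j
      · subst hk; simpa using isInt_one
      · simpa [hk] using IsInt.zero
    have h4 := (mem_Lat.1 h3) i
    simpa using h4
  obtain ⟨a, ha⟩ := exists_iM h2
  exact ⟨u, u', a, hu, ha⟩

theorem det_of_frame {g : M2} (hg : IsFr g) {u u' : Q2} {a : MZ} (hu : dq u u' = 1)
    (ha : g * bas u u' = iM a) : ∃ k : ℤ, a.det = T k := by
  obtain ⟨k, hk⟩ := hg.mul_bas hu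
  refine ⟨k, iQ_injective ?_⟩
  rw [← det_iM, ← ha, hk, iQ_T]

/-- scaling to a primitive integral vector -/
theorem prim_int {v : Q2} (hv : v ≠ 0) : ∃ c : ℚ, c ≠ 0 ∧ ∃ m : Fin 2 → ℤ,
    IsCoprime (m 0) (m 1) ∧ c • v = fun i => (m i : ℚ) := by
  set A : ℤ := (v 0).num * (v 1).den with hA
  set B : ℤ := (v 1).num * (v 0).den with hB
  have d0 : ((v 0).den : ℚ) ≠ 0 := by exact_mod_cast (v 0).den_nz
  have d1 : ((v 1).den : ℚ) ≠ 0 := by exact_mod_cast (v 1).den_nz
  have e0 : ((v 0).den : ℚ) * ((v 1).den : ℚ) * v 0 = A := by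
    have := Rat.mul_den_eq_num (v 0)
    rw [hA]; push_cast; rw [← this]; ring
  have e1 : ((v 0).den : ℚ) * ((v 1).den : ℚ) * v 1 = B := by
    have := Rat.mul_den_eq_num (v 1)
    rw [hB]; push_cast; rw [← this]; ring
  have hg : 0 < Int.gcd A B := by
    rcases Nat.eq_zero_or_pos (Int.gcd A B) with h | h
    · exfalso
      rw [Int.gcd_eq_zero_iff] at h
      apply hv
      rw [h.1] at e0
      rw [h.2] at e1
      ext i; fin_cases i
      · simpa [d0, d1] using e0
      · simpa [d0, d1] using e1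
    · exact h
  obtain ⟨A', B', hc, hA', hB'⟩ := Int.exists_gcd_one hg
  have hgq : ((Int.gcd A B : ℕ) : ℚ) ≠ 0 := by exact_mod_cast hg.ne'
  refine ⟨((v 0).den : ℚ) * ((v 1).den : ℚ) / (Int.gcd A B : ℕ),
    div_ne_zero (mul_ne_zero d0 d1) hgq, ![A', B'], ?_, ?_⟩
  · simpa using Int.isCoprime_iff_gcd_eq_one.2 hc
  · ext i; fin_cases i
    · have : (A : ℚ) = A' * (Int.gcd A B : ℕ) := by exact_mod_cast hA'
      show _ / _ * v 0 = (A' : ℚ)
      rw [div_mul_eq_mul_div, e0, this, mul_div_assoc, div_self hgq, mul_one]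
    · have : (B : ℚ) = B' * (Int.gcd A B : ℕ) := by exact_mod_cast hB'
      show _ / _ * v 1 = (B' : ℚ)
      rw [div_mul_eq_mul_div, e1, this, mul_div_assoc, div_self hgq, mul_one]

/-- integral constant vectors -/
noncomputable def cZ (m : Fin 2 → ℤ) : Fin 2 → RZ := fun j => C (m j)

theorem cst_int {v : Q2} {m : Fin 2 → ℤ} (h : v = fun i => (m i : ℚ)) :
    cst v = fun j => iQ (cZ m j) := by
  rw [h]; ext j : 1; simp [cZ]

theorem T_inv (k : ℤ) : (T (-k) : RZ) * T k = 1 := by rw [← T_add]; simp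

/-- two unimodular columns related by an invertible matrix -/
theorem coprime_of {m n : Fin 2 → ℤ} (hm : IsCoprime (m 0) (m 1)) {B : MZ}
    (h : ∀ j, (C (m j) : RZ) = B.mulVec (cZ n) j) : IsCoprime (n 0) (n 1) := by
  obtain ⟨x, y, hxy⟩ := hm
  have key : ∀ (f : RZ) (r : ℤ), (f * C r).coeff 0 = f.coeff 0 * r := by
    intro f r
    rw [mul_comm, ← smul_eq_C_mul, AddMonoidAlgebra.coeff_smul, Finsupp.smul_apply, smul_eq_mul,
      mul_comm]
  have h0 := congrArg (fun f => f.coeff 0) (h 0)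
  have h1 := congrArg (fun f => f.coeff 0) (h 1)
  simp only [Matrix.mulVec, dotProduct, Fin.sum_univ_two, cZ, AddMonoidAlgebra.coeff_add,
    Finsupp.add_apply, key] at h0 h1
  have hC : ∀ r : ℤ, (C r : RZ).coeff 0 = r := fun r => by rw [C_apply, if_pos rfl]
  rw [hC] at h0 h1
  refine ⟨x * (B 0 0).coeff 0 + y * (B 1 0).coeff 0, x * (B 0 1).coeff 0 + y * (B 1 1).coeff 0, ?_⟩
  linear_combination hxy - x * h0 - y * h1

/-- Same first column up to a power of `x` and determinants powers of `x`. -/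
theorem ELm_of_col {X X' : MZ} {i k k' : ℤ} (hX : X.det = T k) (hX' : X'.det = T k')
    (h0 : X' 0 0 = T i * X 0 0) (h1 : X' 1 0 = T i * X 1 0) (h : ELm X) : ELm X' := by
  rw [Matrix.det_fin_two] at hX hX'
  rw [h0, h1] at hX'
  have hk := T_inv k
  have hi := T_inv i
  have hT : (T (k' - k - i) : RZ) = T k' * T (-k) * T (-i) := by
    rw [← T_add, ← T_add]; congr 1
  set b : RZ := T (-k) * (X 1 1 * X' 0 1 - X 0 1 * X' 1 1) with hb
  have hXU : X * !![T i, b; 0, T (k' - k - i)] = X' := by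
    apply Matrix.ext
    intro r s
    fin_cases r <;> fin_cases s
    · rw [Matrix.mul_apply, Fin.sum_univ_two]
      show X 0 0 * T i + X 0 1 * 0 = X' 0 0
      rw [h0]; ring
    · rw [Matrix.mul_apply, Fin.sum_univ_two]
      show X 0 0 * b + X 0 1 * T (k' - k - i) = X' 0 1
      rw [hT, hb]
      have e1 : X 0 0 * X' 1 1 = T (-i) * T k' + X' 0 1 * X 1 0 := by
        linear_combination (-(X 0 0 * X' 1 1) + X' 0 1 * X 1 0) * hi + T (-i) * hX'
      linear_combination (-(T (-k) : RZ) * X 0 1) * e1 + ((T (-k) : RZ) * X' 0 1) * hX + X' 0 1 * hk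
    · rw [Matrix.mul_apply, Fin.sum_univ_two]
      show X 1 0 * T i + X 1 1 * 0 = X' 1 0
      rw [h1]; ring
    · rw [Matrix.mul_apply, Fin.sum_univ_two]
      show X 1 0 * b + X 1 1 * T (k' - k - i) = X' 1 1
      rw [hT, hb]
      have e1 : X 1 0 * X' 0 1 = X 0 0 * X' 1 1 - T (-i) * T k' := by
        linear_combination (X 0 0 * X' 1 1 - X' 0 1 * X 1 0) * hi - T (-i) * hX'
      linear_combination ((T (-k) : RZ) * X 1 1) * e1 + ((T (-k) : RZ) * X' 1 1) * hX + X' 1 1 * hk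
  have hU : !![T i, b; 0, T (k' - k - i)] =
      (up (b * T (-(k' - k - i))) : MZ) * dg i (k' - k - i) := by
    have h2 := T_inv (k' - k - i)
    ext r s : 2
    fin_cases r <;> fin_cases s <;>
      simp [coe_up, dg, Matrix.mul_apply, Fin.sum_univ_two, -T_mul, mul_assoc, ← T_add]
  rw [← hXU, hU, ← Matrix.mul_assoc]
  exact (h.mul_up _).mul_dg _ _

theorem share {a a' : MZ} {k k' : ℤ} (ha : a.det = T k) (ha' : a'.det = T k') {v w : Q2}
    (hv : v ≠ 0) {i : ℤ}
    (h : (iM a').mulVec (cst w) = (T i : AQ) • (iM a).mulVec (cst v)) (hEL : ELm a) : ELm a' := by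
  obtain ⟨c, hc, m, hm, hcm⟩ := prim_int hv
  have h1 : (iM a').mulVec (cst (c • w)) = (T i : AQ) • (iM a).mulVec (cst (c • v)) := by
    rw [cst_smul, cst_smul, mulVec_smul, mulVec_smul, h, smul_comm]
  have h3 : (iM a').mulVec (cst (c • w)) = fun l => iQ ((T i : RZ) * a.mulVec (cZ m) l) := by
    rw [h1]
    ext l : 1
    rw [cst_int hcm, Pi.smul_apply, iM_mulVec, smul_eq_mul, map_mul, iQ_T]
  have h4 : ∀ j, ∃ n : ℤ, (c • w) j = n := by
    intro j
    rw [← isInt_C_iff]
    have h5 : (iM a'.adjugate).mulVec ((iM a').mulVec (cst (c • w))) =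
        (T k' : AQ) • cst (c • w) := by
      rw [Matrix.mulVec_mulVec]
      have h6 : iM a'.adjugate * iM a' = (T k' : AQ) • (1 : M2) := by
        rw [iM, iM, ← Matrix.map_mul, Matrix.adjugate_mul, ha']
        ext r s : 2
        fin_cases r <;> fin_cases s <;> simp
      rw [h6, Matrix.smul_mulVec, Matrix.one_mulVec]
    rw [h3] at h5
    have h7 := congrFun h5 j
    rw [iM_mulVec, Pi.smul_apply, cst_apply, smul_eq_mul] at h7
    have h8 : C ((c • w) j) = iQ (T (-k') * (a'.adjugate).mulVec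
        (fun l => (T i : RZ) * a.mulVec (cZ m) l) j) := by
      rw [map_mul, h7, ← mul_assoc, iQ_T, ← T_add]
      simp
    rw [h8]
    exact isInt_iQ _
  choose n hn using h4
  have hcn : c • w = fun i => (n i : ℚ) := funext hn
  have h5 : ∀ l, a'.mulVec (cZ n) l = (T i : RZ) * a.mulVec (cZ m) l := by
    intro l
    apply iQ_injective
    rw [← iM_mulVec, ← cst_int hcn, h3]
  have h6 : ∀ j, (C (m j) : RZ) = (((T (-k) : RZ) * T (-i)) • (a.adjugate * a')).mulVec (cZ n) j := by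
    intro j
    rw [Matrix.smul_mulVec, ← Matrix.mulVec_mulVec]
    have h7 : a'.mulVec (cZ n) = (T i : RZ) • a.mulVec (cZ m) := by
      ext l : 1; rw [h5]; rfl
    rw [h7, Matrix.mulVec_smul, Matrix.mulVec_mulVec, Matrix.adjugate_mul, ha,
      Matrix.smul_mulVec, Matrix.one_mulVec, smul_smul, smul_smul]
    have h8 : (T (-k) : RZ) * T (-i) * T i * T k = 1 := by
      rw [← T_add, ← T_add, ← T_add]; simp
    rw [h8, one_smul]
    rfl
  have hncop := coprime_of hm h6
  obtain ⟨S, hS0, hS1⟩ := hm.exists_SL2_col 0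
  obtain ⟨S', hS0', hS1'⟩ := hncop.exists_SL2_col 0
  have col : ∀ (Y : MZ) (S : Matrix.SpecialLinearGroup (Fin 2) ℤ) (m : Fin 2 → ℤ) (l : Fin 2),
      S.1 0 0 = m 0 → S.1 1 0 = m 1 → (Y * (phi S : MZ)) l 0 = Y.mulVec (cZ m) l := by
    intro Y S m l e0 e1
    simp only [Matrix.mul_apply, Fin.sum_univ_two, coe_phi, e0, e1, Matrix.mulVec, dotProduct, cZ]
  have det1 : ∀ S : SZ, (S : MZ).det = 1 := fun S => S.2
  refine ELm.of_mul_mem (phi_mem S') (ELm_of_col (X := a * (phi S : MZ)) (i := i) (k := k)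
    (k' := k') ?_ ?_ ?_ ?_ (hEL.mul_mem (phi_mem S)))
  · rw [Matrix.det_mul, ha, det1, mul_one]
  · rw [Matrix.det_mul, ha', det1, mul_one]
  · rw [col _ _ _ _ hS0 hS1, col _ _ _ _ hS0' hS1', h5]
  · rw [col _ _ _ _ hS0 hS1, col _ _ _ _ hS0' hS1', h5]

/-- the frame has elementary integral matrices -/
def PP (g : M2) : Prop := ∀ u u' : Q2, ∀ a : MZ, dq u u' = 1 → g * bas u u' = iM a → ELm a

theorem PP_one : PP 1 := by
  intro u u' a hu ha
  rw [Matrix.one_mul] at ha
  have hij : ∀ (i j : Fin 2) (q : ℚ), bas u u' i j = C q → ∃ n : ℤ, q = n ∧ a i j = C n := by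
    intro i j q hq
    have h1 : IsInt (C q) := by
      rw [← hq, ha]; exact isInt_iQ _
    obtain ⟨n, hn⟩ := isInt_C_iff.1 h1
    refine ⟨n, hn, iQ_injective ?_⟩
    rw [← iM_apply, ← ha, hq, hn, iQ_C]
  obtain ⟨n00, h00, a00⟩ := hij 0 0 (u 0) rfl
  obtain ⟨n01, h01, a01⟩ := hij 0 1 (u' 0) rfl
  obtain ⟨n10, h10, a10⟩ := hij 1 0 (u 1) rfl
  obtain ⟨n11, h11, a11⟩ := hij 1 1 (u' 1) rfl
  have hd : n00 * n11 - n01 * n10 = 1 := by
    have h := hu
    rw [dq, h00, h01, h10, h11] at h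
    have h' : (n00 : ℚ) * n11 - n01 * n10 = 1 := by linear_combination h
    exact_mod_cast h'
  have hS : a = (phi ⟨!![n00, n01; n10, n11], by rw [Matrix.det_fin_two_of]; exact hd⟩ : MZ) := by
    apply Matrix.ext
    intro i j
    rw [coe_phi]
    fin_cases i <;> fin_cases j
    · exact a00
    · exact a01
    · exact a10
    · exact a11
  rw [hS]
  exact ELm_of_mem (phi_mem _)

theorem PP_step (hL : LatFrStmt) (hT : TOneStmt) {g g' : M2} (h : PP g) (hst : St 2 g g') :
    PP g' := by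
  intro w w' a' hw ha'
  obtain ⟨hg, hg', p, hp, hp'⟩ := hst
  obtain ⟨u, u', a, hu, ha⟩ := frame_int hL hT hg
  obtain ⟨k, hk⟩ := det_of_frame hg.1 hu ha
  obtain ⟨k', hk'⟩ := det_of_frame hg'.1 hw ha'
  rw [← onL_mul_bas hu, ha] at hp
  rw [← onL_mul_bas hw, ha'] at hp'
  obtain ⟨v, hv, i, rfl⟩ := hp
  obtain ⟨v', hv', i', hi'⟩ := hp'
  refine share hk hk' (w := v') (i := i - i') hv ?_ (h u u' a hu ha)
  have h1 : (T (-i') : AQ) • ((T i' : AQ) • Helper88.EL.vec (iM a') v') = Helper88.EL.vec (iM a') v' := by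
    rw [smul_smul, ← T_add]; simp
  show Helper88.EL.vec (iM a') v' = (T (i - i') : AQ) • Helper88.EL.vec (iM a) v
  rw [← h1, ← hi', smul_smul, ← T_add, sub_eq_add_neg, add_comm]

theorem tt_A2 : tt A2 = 1 := by
  rw [tt, AddSubgroup.relIndex_eq_one]
  intro p hp
  rw [AddSubgroup.mem_comap, mem_A2']
  constructor
  · intro n
    rw [P_zero', coeff_tr]
    split_ifs
    · exact (mem_A2'.1 hp).1 n
    · exact ⟨0, by simp⟩
  · intro n
    rw [P_one', coeff_tr]
    split_ifs
    · exact (mem_A2'.1 hp).2 n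
    · exact ⟨0, by simp⟩

/-- The end of the argument. -/
theorem end_stmt : LatFrStmt → TOneStmt → EndStmt := by
  intro hL hT hC M
  have hconn : ∀ g, Conn 2 1 g → PP g := by
    intro g hg
    induction hg with
    | single h => exact PP_step hL hT PP_one h
    | tail _ h ih => exact PP_step hL hT ih h
  have hfr : IsFr (iM (M : MZ)) := ⟨0, by
    rw [det_iM]
    have : (M : MZ).det = 1 := M.2
    rw [this]; simp⟩
  have hLat : Lat (iM (M : MZ)) = A2 := by
    ext p
    rw [mem_Lat]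
    have hint : ∀ (N : SZ) (p : V), p ∈ A2 → (iM (N : MZ)).mulVec p ∈ A2 := by
      intro N p hp
      choose q hq using fun i => isInt_iff.1 (hp i)
      have : p = fun i => iQ (q i) := by ext i : 1; exact (hq i).symm
      rw [this]
      intro i
      rw [iM_mulVec]
      exact isInt_iQ _
    constructor
    · intro hp
      have h2 := hint M⁻¹ _ hp
      rw [Matrix.mulVec_mulVec] at h2
      have h3 : iM ((M⁻¹ : SZ) : MZ) * iM (M : MZ) = 1 := by
        rw [iM, iM, ← Matrix.map_mul, ← Matrix.SpecialLinearGroup.coe_mul, inv_mul_cancel,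
          Matrix.SpecialLinearGroup.coe_one]
        exact Matrix.map_one _ (map_zero _) (map_one _)
      rwa [h3, Matrix.one_mulVec] at h2
    · exact hint M p
  have hb : bas e1 e2 = 1 := by
    ext i j : 2; fin_cases i <;> fin_cases j <;> simp [bas, e1, e2]
  have h1 : ELm (M : MZ) := by
    refine hconn _ (hC _ hfr (by rw [hLat, tt_A2])) e1 e2 (M : MZ) dq_e1_e2 ?_
    rw [hb, Matrix.mul_one]
  obtain ⟨e, he, i, j, hM⟩ := h1
  have hij : j = -i := by
    have h2 : (M : MZ).det = 1 := M.2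
    have h3 : (e : MZ).det = 1 := e.2
    rw [hM, Matrix.det_mul, h3, one_mul, dg, Matrix.det_fin_two_of, mul_zero, sub_zero, ← T_add,
      ← T_zero] at h2
    have h4 := congrArg (fun f : RZ => f.coeff 0) h2
    simp only [T_apply] at h4
    by_contra hne
    rw [if_neg (by omega)] at h4
    simp at h4
  subst hij
  obtain ⟨d, hd, hd'⟩ := dg_mem i
  have : M = e * d := by
    apply Subtype.ext
    rw [Matrix.SpecialLinearGroup.coe_mul, hd']
    exact hM
  rw [this]
  exact EE.mul_mem he hd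

end Pool.Agent.Helper40.EL
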